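import Mathlib

/-!
Simplicial refinements of statistical models: definitions.
-/

set_option autoImplicit false
open Set

namespace Pool.Agent.Q155.Simp

variable {E F : Type*} [AddCommGroup E] [Module ℝ E] [AddCommGroup F] [Module ℝ F]

/-- the convex-form space of `C`: affine functions `C → [0, 1]` -/
def Forms (C : Set E) : Set (C → ℝ) :=
  {w | (∀ x, 0 ≤ w x ∧ w x ≤ 1) ∧ ∀ (x y z : C) (t : ℝ), 0 ≤ t → t ≤ 1 →
    (z : E) = t • (x : E) + (1 - t) • (y : E) → w z = t * w x + (1 - t) * w y}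

/-- `h`, restricted to the domain `D`, is a partial affine map of `X` onto `Y` -/
structure IsPartialAffineOnto (X : Set E) (Y : Set F) (D : Set E) (h : E → F) : Prop where
  sub : D ⊆ X
  aff : ∀ x ∈ D, ∀ y ∈ D, ∀ t : ℝ, 0 ≤ t → t ≤ 1 → t • x + (1 - t) • y ∈ D ∧
    h (t • x + (1 - t) • y) = t • h x + (1 - t) • h y
  onto : h '' D = Y

/-- `(T, Forms T, f, g)` (with domains `Df`, `Dg`) refines `(C, Forms C)` -/
structure IsRefinement (C : Set E) (T : Set F) (Df : Set F) (f : F → E) (Dg : Set (T → ℝ))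
    (g : (T → ℝ) → (C → ℝ)) : Prop where
  f_aff : IsPartialAffineOnto T C Df f
  g_aff : IsPartialAffineOnto (Forms T) (Forms C) Dg g
  dual : ∀ (a : T) (c : C), (a : F) ∈ Df → f a = c → ∀ w ∈ Dg, g w c = w a

/-- polytopes -/
def IsPolytope (C : Set E) : Prop := ∃ S : Set E, S.Finite ∧ S.Nonempty ∧ C = convexHull ℝ S

/-- `T` is the simplex with the affinely independent vertices `v` -/
def IsSimplexWith {ι : Type*} (T : Set E) (v : ι → E) : Prop :=
  AffineIndependent ℝ v ∧ T = convexHull ℝ (range v)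

/-- simplices -/
def IsSimplex (T : Set E) : Prop := ∃ (n : ℕ) (v : Fin (n + 1) → E), IsSimplexWith T v

theorem forms_convex {C : Set E} {x y : C → ℝ} {t : ℝ} (ht0 : 0 ≤ t) (ht1 : t ≤ 1)
    (hx : x ∈ Forms C) (hy : y ∈ Forms C) : t • x + (1 - t) • y ∈ Forms C := by
  refine ⟨fun c => ?_, fun a b c s hs0 hs1 h => ?_⟩
  · have h1 := hx.1 c
    have h2 := hy.1 c
    simp only [Pi.add_apply, Pi.smul_apply, smul_eq_mul]
    constructor
    · have := mul_nonneg ht0 h1.1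
      have := mul_nonneg (sub_nonneg.2 ht1) h2.1
      linarith
    · have := mul_nonneg ht0 (sub_nonneg.2 h1.2)
      have := mul_nonneg (sub_nonneg.2 ht1) (sub_nonneg.2 h2.2)
      nlinarith
  · simp only [Pi.add_apply, Pi.smul_apply, smul_eq_mul]
    rw [hx.2 a b c s hs0 hs1 h, hy.2 a b c s hs0 hs1 h]
    ring

/-- Jensen's equality for forms -/
theorem Forms.sum {C : Set E} (hC : Convex ℝ C) {w : C → ℝ} (hw : w ∈ Forms C) {ι : Type*}
    (s : Finset ι) (a : ι → ℝ) (x : ι → C) (ha : ∀ i ∈ s, 0 ≤ a i) (ha1 : ∑ i ∈ s, a i = 1)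
    (z : C) (hz : (z : E) = ∑ i ∈ s, a i • (x i : E)) : w z = ∑ i ∈ s, a i * w (x i) := by
  classical
  set W : E → ℝ := fun y => if h : y ∈ C then w ⟨y, h⟩ else 0 with hW
  have hWC : ∀ y : C, W y = w y := by
    intro y
    simp only [hW, y.2, dif_pos]
  have haff : ∀ x ∈ C, ∀ y ∈ C, ∀ a b : ℝ, 0 ≤ a → 0 ≤ b → a + b = 1 →
      W (a • x + b • y) = a • W x + b • W y := by
    intro x hx y hy a b ha hb hab
    have hm := hC hx hy ha hb hab
    have hb' : b = 1 - a := by linarith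
    have := hw.2 ⟨x, hx⟩ ⟨y, hy⟩ ⟨_, hm⟩ a ha (by linarith) (by simp only [hb'])
    have h1 := hWC ⟨x, hx⟩
    have h2 := hWC ⟨y, hy⟩
    have h3 := hWC ⟨_, hm⟩
    simp only at h1 h2 h3
    rw [h1, h2, h3, this, smul_eq_mul, smul_eq_mul, hb']
  have hconv : ConvexOn ℝ C W := ⟨hC, fun x hx y hy a b ha hb hab => (haff x hx y hy a b ha hb hab).le⟩
  have hconc : ConcaveOn ℝ C W :=
    ⟨hC, fun x hx y hy a b ha hb hab => (haff x hx y hy a b ha hb hab).ge⟩
  have h1 := hconv.map_sum_le ha ha1 (fun i _ => (x i).2)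
  have h2 := hconc.le_map_sum ha ha1 (fun i _ => (x i).2)
  rw [← hz] at h1 h2
  simp only [hWC, smul_eq_mul] at h1 h2
  exact le_antisymm h1 h2

/-- matrix factorisation extracted from a refinement -/
theorem IsRefinement.factor {C : Set E} {T : Set F} {Df : Set F} {f : F → E} {Dg : Set (T → ℝ)}
    {g : (T → ℝ) → (C → ℝ)} (h : IsRefinement C T Df f Dg g) {ι : Type*} [Fintype ι] {v : ι → F}
    (hT : IsSimplexWith T v) :
    ∃ (lam : C → ι → ℝ) (W : Forms C → ι → ℝ), (∀ c k, 0 ≤ lam c k) ∧ (∀ c, ∑ k, lam c k = 1) ∧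
      (∀ w k, 0 ≤ W w k ∧ W w k ≤ 1) ∧ ∀ c w, ∑ k, lam c k * W w k = (w : C → ℝ) c := by
  classical
  have hTc : Convex ℝ T := by rw [hT.2]; exact convex_convexHull _ _
  have hv : ∀ k, v k ∈ T := fun k => by rw [hT.2]; exact subset_convexHull _ _ ⟨k, rfl⟩
  have h1 : ∀ c : C, ∃ (a : T), (a : F) ∈ Df ∧ f a = c := by
    intro c
    have : (c : E) ∈ f '' Df := by rw [h.f_aff.onto]; exact c.2
    obtain ⟨a, ha, hac⟩ := this
    exact ⟨⟨a, h.f_aff.sub ha⟩, ha, hac⟩
  choose a ha hac using h1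
  have h2 : ∀ c : C, ∃ l : ι → ℝ, (∀ k, 0 ≤ l k) ∧ ∑ k, l k = 1 ∧ (a c : F) = ∑ k, l k • v k := by
    intro c
    have hm : (a c : F) ∈ convexHull ℝ (range v) := by rw [← hT.2]; exact (a c).2
    rw [convexHull_range_eq_exists_affineCombination] at hm
    obtain ⟨s, w, hw0, hw1, hws⟩ := hm
    refine ⟨fun k => if k ∈ s then w k else 0, fun k => ?_, ?_, ?_⟩
    · beta_reduce
      split_ifs with hk
      · exact hw0 k hk
      · exact le_rfl
    · rw [Finset.sum_ite_mem, Finset.univ_inter, hw1]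
    · rw [← hws, s.affineCombination_eq_linear_combination v w hw1]
      simp only [ite_smul, zero_smul]
      rw [Finset.sum_ite_mem, Finset.univ_inter]
  choose l hl0 hl1 hl2 using h2
  have h3 : ∀ w : Forms C, ∃ u : T → ℝ, u ∈ Dg ∧ g u = w := by
    intro w
    have : (w : C → ℝ) ∈ g '' Dg := by rw [h.g_aff.onto]; exact w.2
    obtain ⟨u, hu, huw⟩ := this
    exact ⟨u, hu, huw⟩
  choose u hu huw using h3
  refine ⟨l, fun w k => u w ⟨v k, hv k⟩, hl0, hl1, fun w k => (h.g_aff.sub (hu w)).1 _, ?_⟩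
  intro c w
  have h4 := h.dual (a c) c (ha c) (hac c) (u w) (hu w)
  rw [huw w] at h4
  rw [h4]
  exact (Forms.sum hTc (h.g_aff.sub (hu w)) Finset.univ (l c) (fun k => ⟨v k, hv k⟩)
    (fun k _ => hl0 c k) (hl1 c) (a c) (hl2 c)).symm

/-- a partial affine onto map `f` whose forms lift is part of a refinement -/
theorem exists_refinement {C : Set E} {T : Set F} {Df : Set F} {f : F → E}
    (hf : IsPartialAffineOnto T C Df f)
    (hl : ∀ w' ∈ Forms C, ∃ w ∈ Forms T, ∀ (a : T) (c : C), (a : F) ∈ Df → f a = c → w a = w' c) :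
    ∃ Dg g, IsRefinement C T Df f Dg g := by
  classical
  have h1 : ∀ c : C, ∃ (a : T), (a : F) ∈ Df ∧ f a = c := by
    intro c
    have : (c : E) ∈ f '' Df := by rw [hf.onto]; exact c.2
    obtain ⟨a, ha, hac⟩ := this
    exact ⟨⟨a, hf.sub ha⟩, ha, hac⟩
  choose a ha hac using h1
  refine ⟨{w | w ∈ Forms T ∧ ∃ w' ∈ Forms C, ∀ (a : T) (c : C), (a : F) ∈ Df → f a = c →
    w a = w' c}, fun w c => w (a c), hf, ⟨fun w hw => hw.1, ?_, ?_⟩, ?_⟩
  · rintro x ⟨hx, x', hx', hxx⟩ y ⟨hy, y', hy', hyy⟩ t ht0 ht1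
    refine ⟨⟨?_, t • x' + (1 - t) • y', ?_, ?_⟩, ?_⟩
    · exact forms_convex ht0 ht1 hx hy
    · exact forms_convex ht0 ht1 hx' hy'
    · intro b c hb hbc
      simp only [Pi.add_apply, Pi.smul_apply, hxx b c hb hbc, hyy b c hb hbc]
    · rfl
  · ext w'
    constructor
    · rintro ⟨w, ⟨hw, w'', hw'', h⟩, rfl⟩
      have : (fun c => w (a c)) = w'' := by
        funext c
        exact h (a c) c (ha c) (hac c)
      beta_reduce
      rw [this]
      exact hw''
    · intro hw'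
      obtain ⟨w, hw, h⟩ := hl w' hw'
      refine ⟨w, ⟨hw, w', hw', h⟩, ?_⟩
      funext c
      exact h (a c) c (ha c) (hac c)
  · rintro b c hb hbc w ⟨hw, w', hw', h⟩
    rw [h b c hb hbc, h (a c) c (ha c) (hac c)]

end Pool.Agent.Q155.Simp
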