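import Mathlib
import Pool.Agent.Q155.Simp.Defs

/-!
The polytope `Dif n` (half the difference body of a simplex) and a refinement of it by a simplex
with `2 n` vertices.
-/

set_option autoImplicit false
open Set

namespace Pool.Agent.Q155.Simp

/-- half the difference body of the standard simplex -/
def Dif (n : ℕ) : Set (Fin n → ℝ) := {x | ∑ i, x i = 0 ∧ ∑ i, |x i| ≤ 1}

/-- the points `(e_i - e_j) / 2` -/
noncomputable def pt {n : ℕ} (i j : Fin n) : Fin n → ℝ :=
  fun k => ((Pi.single i (1 : ℝ) : Fin n → ℝ) k - (Pi.single j (1 : ℝ) : Fin n → ℝ) k) / 2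

theorem pt_self {n : ℕ} (i : Fin n) : pt i i = 0 := by
  funext k
  simp [pt]

theorem pt_apply_left {n : ℕ} {i j : Fin n} (h : i ≠ j) : pt i j i = 1 / 2 := by
  simp [pt, h]

theorem pt_apply_right {n : ℕ} {i j : Fin n} (h : i ≠ j) : pt i j j = -(1 / 2) := by
  simp only [pt, Pi.single_eq_same]
  rw [Pi.single_eq_of_ne (Ne.symm h)]
  ring

theorem pt_apply_other {n : ℕ} {i j k : Fin n} (h : k ≠ i) (h' : k ≠ j) : pt i j k = 0 := by
  simp [pt, h, h']

theorem sum_pt {n : ℕ} (i j : Fin n) : ∑ k, pt i j k = 0 := by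
  simp only [pt]
  rw [← Finset.sum_div, Finset.sum_sub_distrib]
  simp

theorem pt_mem {n : ℕ} (i j : Fin n) : pt i j ∈ Dif n := by
  refine ⟨sum_pt i j, ?_⟩
  calc ∑ k, |pt i j k| ≤ ∑ k, ((Pi.single i (1 : ℝ) : Fin n → ℝ) k +
        (Pi.single j (1 : ℝ) : Fin n → ℝ) k) / 2 := by
        refine Finset.sum_le_sum fun k _ => ?_
        have h1 : 0 ≤ (Pi.single i (1 : ℝ) : Fin n → ℝ) k := by
          by_cases h : k = i
          · subst h; simp
          · simp [h]
        have h2 : 0 ≤ (Pi.single j (1 : ℝ) : Fin n → ℝ) k := by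
          by_cases h : k = j
          · subst h; simp
          · simp [h]
        simp only [pt]
        rw [abs_le]
        constructor <;> linarith
    _ = 1 := by
        rw [← Finset.sum_div, Finset.sum_add_distrib]
        simp

theorem convex_Dif (n : ℕ) : Convex ℝ (Dif n) := by
  intro x hx y hy a b ha hb hab
  refine ⟨?_, ?_⟩
  · simp only [Pi.add_apply, Pi.smul_apply, smul_eq_mul]
    rw [Finset.sum_add_distrib, ← Finset.mul_sum, ← Finset.mul_sum, hx.1, hy.1]
    simp
  · calc ∑ i, |(a • x + b • y) i| ≤ ∑ i, (a * |x i| + b * |y i|) := by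
          refine Finset.sum_le_sum fun i _ => ?_
          simp only [Pi.add_apply, Pi.smul_apply, smul_eq_mul]
          refine (abs_add_le _ _).trans ?_
          rw [abs_mul, abs_mul, abs_of_nonneg ha, abs_of_nonneg hb]
      _ = a * ∑ i, |x i| + b * ∑ i, |y i| := by
          rw [Finset.sum_add_distrib, ← Finset.mul_sum, ← Finset.mul_sum]
      _ ≤ a * 1 + b * 1 := by
          have h1 := mul_le_mul_of_nonneg_left hx.2 ha
          have h2 := mul_le_mul_of_nonneg_left hy.2 hb
          linarith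
      _ = 1 := by linarith

/-- the product representation -/
theorem prod_rep {n : ℕ} (p q : Fin n → ℝ) (hp : ∑ i, p i = 1 / 2) (hq : ∑ i, q i = 1 / 2) :
    (fun i => p i - q i) = ∑ a : Fin n × Fin n, (4 * p a.1 * q a.2) • pt a.1 a.2 := by
  funext k
  rw [Finset.sum_apply]
  simp only [Pi.smul_apply, smul_eq_mul, pt]
  rw [← Finset.univ_product_univ, Finset.sum_product]
  have h1 : ∀ i : Fin n, ∑ j, 4 * p i * q j * (((Pi.single i (1 : ℝ) : Fin n → ℝ) k -
      (Pi.single j (1 : ℝ) : Fin n → ℝ) k) / 2) =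
      p i * (Pi.single i (1 : ℝ) : Fin n → ℝ) k - 2 * p i * q k := by
    intro i
    have : ∀ j : Fin n, 4 * p i * q j * (((Pi.single i (1 : ℝ) : Fin n → ℝ) k -
      (Pi.single j (1 : ℝ) : Fin n → ℝ) k) / 2) =
      q j * (2 * p i * (Pi.single i (1 : ℝ) : Fin n → ℝ) k) -
      2 * p i * (q j * (Pi.single j (1 : ℝ) : Fin n → ℝ) k) := by
      intro j; ring
    simp only [this]
    rw [Finset.sum_sub_distrib, ← Finset.sum_mul, hq, ← Finset.mul_sum]
    have h2 : ∑ j, q j * (Pi.single j (1 : ℝ) : Fin n → ℝ) k = q k := by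
      rw [Finset.sum_eq_single k]
      · simp
      · intro j _ hj
        rw [Pi.single_eq_of_ne (Ne.symm hj)]
        ring
      · simp
    rw [h2]
    ring
  simp only [h1]
  rw [Finset.sum_sub_distrib]
  have h3 : ∑ j, p j * (Pi.single j (1 : ℝ) : Fin n → ℝ) k = p k := by
    rw [Finset.sum_eq_single k]
    · simp
    · intro j _ hj
      rw [Pi.single_eq_of_ne (Ne.symm hj)]
      ring
    · simp
  rw [h3, ← Finset.sum_mul, ← Finset.mul_sum, hp]
  ring

theorem prod_weights {n : ℕ} (p q : Fin n → ℝ) (hp : ∑ i, p i = 1 / 2) (hq : ∑ i, q i = 1 / 2) :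
    ∑ a : Fin n × Fin n, (4 * p a.1 * q a.2) = 1 := by
  rw [← Finset.univ_product_univ, Finset.sum_product]
  simp only
  have : ∀ i, ∑ j, 4 * p i * q j = 2 * p i := by
    intro i
    rw [← Finset.mul_sum, hq]
    ring
  simp only [this]
  rw [← Finset.mul_sum, hp]
  norm_num

/-- the canonical splitting -/
theorem exists_split {n : ℕ} (hn : 0 < n) {x : Fin n → ℝ} (hx : x ∈ Dif n) :
    ∃ p q : Fin n → ℝ, (∀ i, 0 ≤ p i) ∧ (∀ i, 0 ≤ q i) ∧ ∑ i, p i = 1 / 2 ∧ ∑ i, q i = 1 / 2 ∧
      x = fun i => p i - q i := by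
  have hn' : (0 : ℝ) < n := by exact_mod_cast hn
  set S := ∑ i, max (x i) 0 with hS
  have h1 : ∀ i, max (x i) 0 = (|x i| + x i) / 2 := by
    intro i
    rcases le_total 0 (x i) with h | h
    · rw [max_eq_left h, abs_of_nonneg h]; ring
    · rw [max_eq_right h, abs_of_nonpos h]; ring
  have h2 : ∀ i, max (-x i) 0 = (|x i| - x i) / 2 := by
    intro i
    rcases le_total 0 (x i) with h | h
    · rw [max_eq_right (by linarith), abs_of_nonneg h]; ring
    · rw [max_eq_left (by linarith), abs_of_nonpos h]; ring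
  have hS1 : S = (∑ i, |x i|) / 2 := by
    rw [hS]
    simp only [h1]
    rw [← Finset.sum_div, Finset.sum_add_distrib, hx.1, add_zero]
  have hS2 : ∑ i, max (-x i) 0 = S := by
    rw [hS1]
    simp only [h2]
    rw [← Finset.sum_div, Finset.sum_sub_distrib, hx.1, sub_zero]
  have hS3 : S ≤ 1 / 2 := by
    rw [hS1]
    have := hx.2
    linarith
  set d := (1 / 2 - S) / n with hd
  have hd0 : 0 ≤ d := div_nonneg (by linarith) hn'.le
  have hdn : (n : ℝ) * d = 1 / 2 - S := by
    rw [hd]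
    field_simp
  refine ⟨fun i => max (x i) 0 + d, fun i => max (-x i) 0 + d, fun i => ?_, fun i => ?_, ?_, ?_, ?_⟩
  · exact add_nonneg (le_max_right _ _) hd0
  · exact add_nonneg (le_max_right _ _) hd0
  · rw [Finset.sum_add_distrib, ← hS]
    simp only [Finset.sum_const, Finset.card_univ, Fintype.card_fin, nsmul_eq_mul]
    rw [hdn]
    ring
  · rw [Finset.sum_add_distrib, hS2]
    simp only [Finset.sum_const, Finset.card_univ, Fintype.card_fin, nsmul_eq_mul]
    rw [hdn]
    ring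
  · funext i
    simp only [h1, h2]
    ring

theorem Dif_eq_hull {n : ℕ} (hn : 2 ≤ n) :
    Dif n = convexHull ℝ (range fun a : {a : Fin n × Fin n // a.1 ≠ a.2} => pt a.1.1 a.1.2) := by
  apply Subset.antisymm
  · intro x hx
    obtain ⟨p, q, hp0, hq0, hp, hq, rfl⟩ := exists_split (by omega) hx
    rw [prod_rep p q hp hq]
    refine (convex_convexHull ℝ _).sum_mem (fun a _ => ?_) (prod_weights p q hp hq) (fun a _ => ?_)
    · exact mul_nonneg (mul_nonneg (by norm_num) (hp0 _)) (hq0 _)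
    · by_cases h : a.1 = a.2
      · rw [h, pt_self]
        have h01 : (⟨0, by omega⟩ : Fin n) ≠ ⟨1, by omega⟩ := by
          intro h
          simp [Fin.ext_iff] at h
        have h1 : pt (⟨0, by omega⟩ : Fin n) ⟨1, by omega⟩ ∈ convexHull ℝ
            (range fun a : {a : Fin n × Fin n // a.1 ≠ a.2} => pt a.1.1 a.1.2) :=
          subset_convexHull _ _ ⟨⟨(_, _), h01⟩, rfl⟩
        have h2 : pt (⟨1, by omega⟩ : Fin n) ⟨0, by omega⟩ ∈ convexHull ℝ
            (range fun a : {a : Fin n × Fin n // a.1 ≠ a.2} => pt a.1.1 a.1.2) :=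
          subset_convexHull _ _ ⟨⟨(_, _), h01.symm⟩, rfl⟩
        have h3 := (convex_convexHull ℝ _) h1 h2 (by norm_num : (0 : ℝ) ≤ 1 / 2)
          (by norm_num : (0 : ℝ) ≤ 1 / 2) (by norm_num)
        convert h3 using 1
        funext k
        simp only [pt, Pi.add_apply, Pi.smul_apply, smul_eq_mul, Pi.zero_apply]
        ring
      · exact subset_convexHull _ _ ⟨⟨a, h⟩, rfl⟩
  · refine convexHull_min ?_ (convex_Dif n)
    rintro _ ⟨a, rfl⟩
    exact pt_mem _ _

theorem isPolytope_Dif {n : ℕ} (hn : 2 ≤ n) : IsPolytope (Dif n) := by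
  refine ⟨_, finite_range _, ?_, Dif_eq_hull hn⟩
  refine ⟨_, ⟨⟨(⟨0, by omega⟩, ⟨1, by omega⟩), ?_⟩, rfl⟩⟩
  intro h
  simp [Fin.ext_iff] at h

/-- `x_i - x_j ≤ 1` on `Dif n` -/
theorem sub_le_one {n : ℕ} {x : Fin n → ℝ} (hx : x ∈ Dif n) {i j : Fin n} (hij : i ≠ j) :
    x i - x j ≤ 1 := by
  have h1 : |x i| + |x j| ≤ ∑ k, |x k| := by
    rw [← Finset.sum_pair (f := fun k => |x k|) hij]
    exact Finset.sum_le_sum_of_subset_of_nonneg (Finset.subset_univ _) fun _ _ _ => abs_nonneg _
  have h2 := hx.2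
  have h3 := le_abs_self (x i)
  have h4 := neg_abs_le (x j)
  linarith

theorem eq_pt_of_sub_eq_one {n : ℕ} {x : Fin n → ℝ} (hx : x ∈ Dif n) {i j : Fin n} (hij : i ≠ j)
    (h : x i - x j = 1) : x = pt i j := by
  have h1 : |x i| + |x j| = ∑ k ∈ ({i, j} : Finset (Fin n)), |x k| := by
    rw [Finset.sum_pair (f := fun k => |x k|) hij]
  have h0 : ∑ k ∈ ({i, j} : Finset (Fin n)), |x k| +
      ∑ k ∈ ({i, j} : Finset (Fin n))ᶜ, |x k| = ∑ k, |x k| := Finset.sum_add_sum_compl _ _
  have h2 := hx.2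
  have h3 := le_abs_self (x i)
  have h4 := neg_abs_le (x j)
  have h5 : 0 ≤ ∑ k ∈ ({i, j} : Finset (Fin n))ᶜ, |x k| :=
    Finset.sum_nonneg fun _ _ => abs_nonneg _
  have h6 : ∑ k ∈ ({i, j} : Finset (Fin n))ᶜ, |x k| = 0 := by linarith
  have h7 : ∀ k, k ≠ i → k ≠ j → x k = 0 := by
    intro k hki hkj
    have := (Finset.sum_eq_zero_iff_of_nonneg (fun _ _ => abs_nonneg _)).1 h6 k (by simp [hki, hkj])
    exact abs_eq_zero.1 this
  have h8 : x i + x j = 0 := by
    have h9 : ∑ k ∈ ({i, j} : Finset (Fin n)), x k +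
      ∑ k ∈ ({i, j} : Finset (Fin n))ᶜ, x k = ∑ k, x k := Finset.sum_add_sum_compl _ _
    rw [hx.1, Finset.sum_pair hij] at h9
    rw [Finset.sum_eq_zero (s := ({i, j} : Finset (Fin n))ᶜ)] at h9
    · linarith
    · intro k hk
      simp only [Finset.mem_compl, Finset.mem_insert, Finset.mem_singleton, not_or] at hk
      exact h7 k hk.1 hk.2
  funext k
  by_cases hki : k = i
  · subst hki
    rw [pt_apply_left hij]
    linarith
  · by_cases hkj : k = j
    · subst hkj
      rw [pt_apply_right hij]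
      linarith
    · rw [pt_apply_other hki hkj, h7 k hki hkj]

theorem pt_sub_eq_one {n : ℕ} {i j : Fin n} (hij : i ≠ j) : pt i j i - pt i j j = 1 := by
  rw [pt_apply_left hij, pt_apply_right hij]
  norm_num

theorem pt_mem_extremePoints {n : ℕ} {i j : Fin n} (hij : i ≠ j) :
    pt i j ∈ (Dif n).extremePoints ℝ := by
  rw [mem_extremePoints]
  refine ⟨pt_mem i j, ?_⟩
  intro x hx y hy hxy
  obtain ⟨a, b, ha, hb, hab, h⟩ := hxy
  have h1 := pt_sub_eq_one hij
  rw [← h] at h1
  simp only [Pi.add_apply, Pi.smul_apply, smul_eq_mul] at h1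
  have hx1 := sub_le_one hx hij
  have hy1 := sub_le_one hy hij
  have hx2 : x i - x j = 1 := by
    by_contra hne
    have : x i - x j < 1 := lt_of_le_of_ne hx1 hne
    nlinarith
  have hy2 : y i - y j = 1 := by
    by_contra hne
    have : y i - y j < 1 := lt_of_le_of_ne hy1 hne
    nlinarith
  exact ⟨eq_pt_of_sub_eq_one hx hij hx2, eq_pt_of_sub_eq_one hy hij hy2⟩

theorem extremePoints_Dif {n : ℕ} (hn : 2 ≤ n) : (Dif n).extremePoints ℝ =
    range fun a : {a : Fin n × Fin n // a.1 ≠ a.2} => pt a.1.1 a.1.2 := by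
  apply Subset.antisymm
  · conv_lhs => rw [Dif_eq_hull hn]
    exact extremePoints_convexHull_subset
  · rintro _ ⟨a, rfl⟩
    exact pt_mem_extremePoints a.2

theorem pt_injective {n : ℕ} {i j i' j' : Fin n} (h : i ≠ j) (h' : i' ≠ j')
    (he : pt i j = pt i' j') : i = i' ∧ j = j' := by
  constructor
  · by_contra hne
    have h1 : pt i' j' i = 1 / 2 := by rw [← he, pt_apply_left h]
    by_cases hj : i = j'
    · subst hj
      rw [pt_apply_right h'] at h1
      norm_num at h1
    · rw [pt_apply_other hne hj] at h1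
      norm_num at h1
  · by_contra hne
    have h1 : pt i' j' j = -(1 / 2) := by rw [← he, pt_apply_right h]
    by_cases hj : j = i'
    · subst hj
      rw [pt_apply_left h'] at h1
      norm_num at h1
    · rw [pt_apply_other hj hne] at h1
      norm_num at h1

theorem ncard_extremePoints {n : ℕ} (hn : 2 ≤ n) :
    ((Dif n).extremePoints ℝ).ncard = n * (n - 1) := by
  classical
  rw [extremePoints_Dif hn]
  have hinj : Function.Injective (fun a : {a : Fin n × Fin n // a.1 ≠ a.2} => pt a.1.1 a.1.2) := by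
    intro a b hab
    have := pt_injective a.2 b.2 hab
    exact Subtype.ext (Prod.ext this.1 this.2)
  rw [← Set.image_univ, Set.ncard_image_of_injective _ hinj, Set.ncard_univ, Nat.card_eq_fintype_card]
  rw [Fintype.card_subtype]
  have : (Finset.univ.filter fun a : Fin n × Fin n => a.1 ≠ a.2) =
      (Finset.univ : Finset (Fin n)).offDiag := by
    ext a
    simp
  rw [this, Finset.offDiag_card]
  simp only [Finset.card_univ, Fintype.card_fin]
  rw [Nat.mul_sub, Nat.mul_one]

theorem not_isSimplex_Dif {n : ℕ} (hn : 3 ≤ n) : ¬ IsSimplex (Dif n) := by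
  classical
  rintro ⟨k, v, hv, hT⟩
  have hr : ∀ i j : Fin n, i ≠ j → ∃ a, v a = pt i j := by
    intro i j hij
    have h1 := pt_mem_extremePoints hij
    rw [hT] at h1
    have h2 : pt i j ∈ range v := extremePoints_convexHull_subset h1
    exact h2
  set z0 : Fin n := ⟨0, by omega⟩
  set z1 : Fin n := ⟨1, by omega⟩
  set z2 : Fin n := ⟨2, by omega⟩
  have h01 : z0 ≠ z1 := by simp [z0, z1, Fin.ext_iff]
  have h02 : z0 ≠ z2 := by simp [z0, z2, Fin.ext_iff]
  have h12 : z1 ≠ z2 := by simp [z1, z2, Fin.ext_iff]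
  obtain ⟨a, ha⟩ := hr z0 z1 h01
  obtain ⟨b, hb⟩ := hr z1 z0 h01.symm
  obtain ⟨c, hc⟩ := hr z1 z2 h12
  obtain ⟨d, hd⟩ := hr z2 z1 h12.symm
  have hac : a ≠ c := by
    rintro rfl
    exact h01 (pt_injective h01 h12 (ha.symm.trans hc)).1
  have had : a ≠ d := by
    rintro rfl
    exact h02 (pt_injective h01 h12.symm (ha.symm.trans hd)).1
  have hab : a ≠ b := by
    rintro rfl
    exact h01 (pt_injective h01 h01.symm (ha.symm.trans hb)).1
  rw [affineIndependent_iff] at hv
  have h := hv Finset.univ (fun e => (Pi.single a (1 : ℝ) : Fin (k + 1) → ℝ) e +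
    (Pi.single b (1 : ℝ) : Fin (k + 1) → ℝ) e - (Pi.single c (1 : ℝ) : Fin (k + 1) → ℝ) e
    - (Pi.single d (1 : ℝ) : Fin (k + 1) → ℝ) e) ?_ ?_ a (Finset.mem_univ _)
  · simp only [Pi.single_eq_same] at h
    rw [Pi.single_eq_of_ne hab, Pi.single_eq_of_ne hac, Pi.single_eq_of_ne had] at h
    norm_num at h
  · rw [Finset.sum_sub_distrib, Finset.sum_sub_distrib, Finset.sum_add_distrib]
    simp
  · simp only [sub_smul, add_smul]
    rw [Finset.sum_sub_distrib, Finset.sum_sub_distrib, Finset.sum_add_distrib]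
    have hs : ∀ a : Fin (k + 1), ∑ e, (Pi.single a (1 : ℝ) : Fin (k + 1) → ℝ) e • v e = v a := by
      intro a
      rw [Finset.sum_eq_single a]
      · simp
      · intro e _ he
        simp [he]
      · simp
    rw [hs, hs, hs, hs, ha, hb, hc, hd]
    funext e
    simp only [pt, Pi.add_apply, Pi.sub_apply, Pi.zero_apply]
    ring

end Pool.Agent.Q155.Simp
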