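import Mathlib
import Pool.Agent.Q155.Simp.Model

/-!
Every simplicial refinement of `Dif n` has at least `2 n` vertices.
-/

set_option autoImplicit false
open Set

namespace Pool.Agent.Q155.Simp

/-- the form `1/2 + sum over S` -/
noncomputable def formS {n : ℕ} (S : Finset (Fin n)) : Dif n → ℝ :=
  fun x => 1 / 2 + ∑ i ∈ S, (x : Fin n → ℝ) i

theorem formS_mem {n : ℕ} (S : Finset (Fin n)) : formS S ∈ Forms (Dif n) := by
  classical
  refine ⟨fun x => ?_, fun x y z t _ _ h => ?_⟩
  · have h1 : ∑ i ∈ S, (x : Fin n → ℝ) i + ∑ i ∈ Sᶜ, (x : Fin n → ℝ) i = 0 := by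
      rw [Finset.sum_add_sum_compl]
      exact x.2.1
    have h2 : ∑ i ∈ S, |(x : Fin n → ℝ) i| + ∑ i ∈ Sᶜ, |(x : Fin n → ℝ) i| ≤ 1 := by
      rw [Finset.sum_add_sum_compl]
      exact x.2.2
    have h3 := Finset.abs_sum_le_sum_abs (fun i => (x : Fin n → ℝ) i) S
    have h4 := Finset.abs_sum_le_sum_abs (fun i => (x : Fin n → ℝ) i) Sᶜ
    simp only [formS]
    rw [abs_le] at h3 h4
    constructor <;> linarith [h3.1, h3.2, h4.1, h4.2]
  · simp only [formS, h, Pi.add_apply, Pi.smul_apply, smul_eq_mul]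
    rw [Finset.sum_add_distrib, ← Finset.mul_sum, ← Finset.mul_sum]
    ring

theorem formS_pt {n : ℕ} (S : Finset (Fin n)) (i j : Fin n) :
    formS S ⟨pt i j, pt_mem i j⟩ = 1 / 2 + (if i ∈ S then 1 else 0) / 2 -
      (if j ∈ S then 1 else 0) / 2 := by
  classical
  have h : ∀ i : Fin n, ∑ x ∈ S, (Pi.single i (1 : ℝ) : Fin n → ℝ) x = if i ∈ S then 1 else 0 := by
    intro i
    simp only [Pi.single_apply]
    rw [Finset.sum_ite_eq']
  simp only [formS, pt]
  rw [← Finset.sum_div, Finset.sum_sub_distrib, h, h]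
  ring

theorem fin_succ_ne {m : ℕ} (j : Fin (m + 3)) : j + 1 ≠ j := by
  intro h
  rw [add_eq_left] at h
  exact one_ne_zero h

theorem fin_succ_succ_ne {m : ℕ} (j : Fin (m + 3)) : j + 1 + 1 ≠ j := by
  intro h
  rw [add_assoc, add_eq_left] at h
  have := congrArg Fin.val h
  rw [Fin.val_add] at this
  have h1 : ((1 : Fin (m + 3)) : ℕ) = 1 := rfl
  have h0 : ((0 : Fin (m + 3)) : ℕ) = 0 := rfl
  rw [h1, h0, Nat.mod_eq_of_lt (by omega)] at this
  omega

theorem card_lower {m : ℕ} {ι : Type*} [Fintype ι]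
    (lam : Dif (m + 3) → ι → ℝ) (W : Forms (Dif (m + 3)) → ι → ℝ)
    (hl0 : ∀ c k, 0 ≤ lam c k) (hl1 : ∀ c, ∑ k, lam c k = 1)
    (hW : ∀ w k, 0 ≤ W w k ∧ W w k ≤ 1)
    (hlW : ∀ c w, ∑ k, lam c k * W w k = (w : Dif (m + 3) → ℝ) c) :
    2 * (m + 3) ≤ Fintype.card ι := by
  classical
  set L : Fin (m + 3) → Fin (m + 3) → ι → ℝ := fun i j k => lam ⟨pt i j, pt_mem i j⟩ k with hL
  set V : Finset (Fin (m + 3)) → ι → ℝ := fun S k => W ⟨formS S, formS_mem S⟩ k with hV
  have hL0 : ∀ i j k, 0 ≤ L i j k := fun i j k => hl0 _ _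
  have hL1 : ∀ i j, ∑ k, L i j k = 1 := fun i j => hl1 _
  have hV0 : ∀ S k, 0 ≤ V S k := fun S k => (hW _ _).1
  have hV1 : ∀ S k, V S k ≤ 1 := fun S k => (hW _ _).2
  have hLV : ∀ i j S, ∑ k, L i j k * V S k = 1 / 2 + (if i ∈ S then 1 else 0) / 2 -
      (if j ∈ S then 1 else 0) / 2 := fun i j S => by
    rw [← formS_pt]
    exact hlW _ _
  -- value one
  have hone : ∀ i j S k, i ∈ S → j ∉ S → 0 < L i j k → V S k = 1 := by
    intro i j S k hi hj hk
    have h1 := hLV i j S
    rw [if_pos hi, if_neg hj] at h1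
    have h2 : ∑ k, L i j k * (1 - V S k) = 0 := by
      simp only [mul_sub, mul_one]
      rw [Finset.sum_sub_distrib, h1, hL1]
      norm_num
    have h3 := (Finset.sum_eq_zero_iff_of_nonneg
      (fun k _ => mul_nonneg (hL0 i j k) (sub_nonneg.2 (hV1 S k)))).1 h2 k (Finset.mem_univ _)
    rcases mul_eq_zero.1 h3 with h | h
    · exact absurd h hk.ne'
    · linarith
  have hzero : ∀ i j S k, i ∉ S → j ∈ S → 0 < L i j k → V S k = 0 := by
    intro i j S k hi hj hk
    have h1 := hLV i j S
    rw [if_neg hi, if_pos hj] at h1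
    have h2 : ∑ k, L i j k * V S k = 0 := by
      rw [h1]
      norm_num
    have h3 := (Finset.sum_eq_zero_iff_of_nonneg
      (fun k _ => mul_nonneg (hL0 i j k) (hV0 S k))).1 h2 k (Finset.mem_univ _)
    rcases mul_eq_zero.1 h3 with h | h
    · exact absurd h hk.ne'
    · exact h
  -- the cells at a vertex pairwise share a row or a column
  have hshare : ∀ k i j i' j', i ≠ j → i' ≠ j' → 0 < L i j k → 0 < L i' j' k →
      i = i' ∨ j = j' := by
    intro k i j i' j' hij hij' h h'
    by_contra hne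
    push Not at hne
    have h1 := hone i j {i, j'} k (by simp) (by simp [hij.symm, hne.2]) h
    have h2 := hzero i' j' {i, j'} k (by simp [hne.1.symm, hij']) (by simp) h'
    rw [h1] at h2
    exact one_ne_zero h2
  -- row vertices, column vertices, single vertices
  set R : Fin (m + 3) → ι → Prop := fun i k => ∃ j j', j ≠ j' ∧ i ≠ j ∧ i ≠ j' ∧
    0 < L i j k ∧ 0 < L i j' k with hR
  set Co : Fin (m + 3) → ι → Prop := fun j k => ∃ i i', i ≠ i' ∧ i ≠ j ∧ i' ≠ j ∧
    0 < L i j k ∧ 0 < L i' j k with hCo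
  set Sg : Fin (m + 3) → Fin (m + 3) → ι → Prop := fun i j k => 0 < L i j k ∧
    ∀ i' j', i' ≠ j' → 0 < L i' j' k → i' = i ∧ j' = j with hSg
  have hrow : ∀ i, ∃ k, R i k ∨ Sg i (i + 1) k := by
    intro i
    by_contra hno
    push Not at hno
    have hij : i ≠ i + 1 := (fin_succ_ne i).symm
    have h1 := hLV i (i + 1) {i, i + 1}
    rw [if_pos (by simp), if_pos (by simp)] at h1
    have h2 : ∑ k, L i (i + 1) k * V {i, i + 1} k = 0 := by
      refine Finset.sum_eq_zero fun k _ => ?_
      rcases (hL0 i (i + 1) k).lt_or_eq with hk | hk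
      · -- not single: another cell
        have hns := (hno k).2
        have hnr := (hno k).1
        simp only [hSg, not_and, not_forall] at hns
        obtain ⟨i', j', hij', hk', hne⟩ := hns hk
        have hne' := hne
        have hj' : j' = i + 1 := by
          rcases hshare k i (i + 1) i' j' hij hij' hk hk' with h | h
          · subst h
            by_contra hj
            exact hnr ⟨i + 1, j', Ne.symm hj, hij, hij', hk, hk'⟩
          · exact h.symm
        have hi' : i' ≠ i := fun h => hne' h hj'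
        have h0 := hzero i' j' {i, i + 1} k (by simp [hi', hj' ▸ hij']) (by simp [hj']) hk'
        rw [h0, mul_zero]
      · rw [← hk, zero_mul]
    rw [h2] at h1
    norm_num at h1
  have hcol : ∀ j, ∃ k, Co j k ∨ Sg (j + 1) j k := by
    intro j
    by_contra hno
    push Not at hno
    have hij : j + 1 ≠ j := fin_succ_ne j
    have h1 := hLV (j + 1) j {j + 1, j}
    rw [if_pos (by simp), if_pos (by simp)] at h1
    have h2 : ∑ k, L (j + 1) j k * V {j + 1, j} k = ∑ k, L (j + 1) j k := by
      refine Finset.sum_congr rfl fun k _ => ?_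
      rcases (hL0 (j + 1) j k).lt_or_eq with hk | hk
      · have hns := (hno k).2
        have hnr := (hno k).1
        simp only [hSg, not_and, not_forall] at hns
        obtain ⟨i', j', hij', hk', hne⟩ := hns hk
        have hne' := hne
        have hi' : i' = j + 1 := by
          rcases hshare k (j + 1) j i' j' hij hij' hk hk' with h | h
          · exact h.symm
          · subst h
            by_contra hj
            exact hnr ⟨j + 1, i', Ne.symm hj, hij, hij', hk, hk'⟩
        have hj' : j' ≠ j := fun h => hne' hi' h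
        have h0 := hone i' j' {j + 1, j} k (by simp [hi']) (by simp [hj', (hi' ▸ hij').symm]) hk'
        rw [h0, mul_one]
      · rw [← hk, zero_mul]
    rw [h2, hL1] at h1
    norm_num at h1
  choose r hr using hrow
  choose s hs using hcol
  have hRR : ∀ i i' k, R i k → R i' k → i = i' := by
    rintro i i' k ⟨j1, j2, hne, h1, h2, h3, h4⟩ ⟨j1', j2', hne', h1', h2', h3', h4'⟩
    by_contra hii
    have e1 := (hshare k i j1 i' j1' h1 h1' h3 h3').resolve_left hii
    have e2 := (hshare k i j1 i' j2' h1 h2' h3 h4').resolve_left hii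
    exact hne' (e1.symm.trans e2)
  have hCC : ∀ j j' k, Co j k → Co j' k → j = j' := by
    rintro j j' k ⟨i1, i2, hne, h1, h2, h3, h4⟩ ⟨i1', i2', hne', h1', h2', h3', h4'⟩
    by_contra hjj
    have e1 := (hshare k i1 j i1' j' h1 h1' h3 h3').resolve_right hjj
    have e2 := (hshare k i1 j i2' j' h1 h2' h3 h4').resolve_right hjj
    exact hne' (e1.symm.trans e2)
  have hRS : ∀ i i' j' k, R i k → Sg i' j' k → False := by
    rintro i i' j' k ⟨j1, j2, hne, h1, h2, h3, h4⟩ ⟨_, h⟩
    exact hne ((h i j1 h1 h3).2.trans (h i j2 h2 h4).2.symm)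
  have hCS : ∀ j i' j' k, Co j k → Sg i' j' k → False := by
    rintro j i' j' k ⟨i1, i2, hne, h1, h2, h3, h4⟩ ⟨_, h⟩
    exact hne ((h i1 j h1 h3).1.trans (h i2 j h2 h4).1.symm)
  have hRC : ∀ i j k, R i k → Co j k → False := by
    rintro i j k ⟨j1, j2, hne, h1, h2, h3, h4⟩ ⟨i1, i2, hne', h1', h2', h3', h4'⟩
    have e1 : j1 = j := by
      by_contra hj
      have a1 := (hshare k i j1 i1 j h1 h1' h3 h3').resolve_right hj
      have a2 := (hshare k i j1 i2 j h1 h2' h3 h4').resolve_right hj
      exact hne' (a1.symm.trans a2)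
    have e2 : j2 = j := by
      by_contra hj
      have a1 := (hshare k i j2 i1 j h2 h1' h4 h3').resolve_right hj
      have a2 := (hshare k i j2 i2 j h2 h2' h4 h4').resolve_right hj
      exact hne' (a1.symm.trans a2)
    exact hne (e1.trans e2.symm)
  have hinj : Function.Injective (Sum.elim r s) := by
    rintro (i | j) (i' | j') h
    · simp only [Sum.elim_inl] at h
      congr 1
      rcases hr i with h1 | h1 <;> rcases hr i' with h2 | h2
      · rw [← h] at h2
        exact hRR _ _ _ h1 h2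
      · rw [← h] at h2
        exact (hRS _ _ _ _ h1 h2).elim
      · rw [← h] at h2
        exact (hRS _ _ _ _ h2 h1).elim
      · rw [← h] at h2
        exact (h2.2 _ _ (fin_succ_ne i).symm h1.1).1
    · simp only [Sum.elim_inl, Sum.elim_inr] at h
      exfalso
      rcases hr i with h1 | h1 <;> rcases hs j' with h2 | h2
      · rw [← h] at h2
        exact hRC _ _ _ h1 h2
      · rw [← h] at h2
        exact hRS _ _ _ _ h1 h2
      · rw [← h] at h2
        exact hCS _ _ _ _ h2 h1
      · rw [← h] at h2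
        have h3 := h2.2 _ _ (fin_succ_ne i).symm h1.1
        have h4 : j' + 1 + 1 = j' := by rw [← h3.1, h3.2]
        exact fin_succ_succ_ne _ h4
    · simp only [Sum.elim_inl, Sum.elim_inr] at h
      exfalso
      rcases hr i' with h1 | h1 <;> rcases hs j with h2 | h2
      · rw [h] at h2
        exact hRC _ _ _ h1 h2
      · rw [h] at h2
        exact hRS _ _ _ _ h1 h2
      · rw [h] at h2
        exact hCS _ _ _ _ h2 h1
      · rw [h] at h2
        have h3 := h2.2 _ _ (fin_succ_ne i').symm h1.1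
        have h4 : j + 1 + 1 = j := by rw [← h3.1, h3.2]
        exact fin_succ_succ_ne _ h4
    · simp only [Sum.elim_inr] at h
      congr 1
      rcases hs j with h1 | h1 <;> rcases hs j' with h2 | h2
      · rw [← h] at h2
        exact hCC _ _ _ h1 h2
      · rw [← h] at h2
        exact (hCS _ _ _ _ h1 h2).elim
      · rw [← h] at h2
        exact (hCS _ _ _ _ h2 h1).elim
      · rw [← h] at h2
        exact (h2.2 _ _ (fin_succ_ne j) h1.1).2
  have := Fintype.card_le_of_injective _ hinj
  rw [Fintype.card_sum, Fintype.card_fin] at this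
  omega

end Pool.Agent.Q155.Simp
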