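import Mathlib
import Pool.Agent.Q155.Simp.Model

/-!
The refinement of `Dif n` by a simplex with `2 n` vertices.
-/

set_option autoImplicit false
open Set

namespace Pool.Agent.Q155.Simp

/-- the simplex -/
def TT (n : ℕ) : Set (Fin n ⊕ Fin n → ℝ) := stdSimplex ℝ (Fin n ⊕ Fin n)

/-- the domain -/
def DD (n : ℕ) : Set (Fin n ⊕ Fin n → ℝ) := {z | z ∈ TT n ∧ ∑ i, z (Sum.inl i) = 1 / 2}

/-- the map -/
def ff {n : ℕ} (z : Fin n ⊕ Fin n → ℝ) : Fin n → ℝ := fun i => z (Sum.inl i) - z (Sum.inr i)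

theorem DD_right {n : ℕ} {z : Fin n ⊕ Fin n → ℝ} (hz : z ∈ DD n) : ∑ i, z (Sum.inr i) = 1 / 2 := by
  have h1 := hz.1.2
  rw [Fintype.sum_sum_type, hz.2] at h1
  linarith

theorem isPartial_ff {n : ℕ} (hn : 2 ≤ n) : IsPartialAffineOnto (TT n) (Dif n) (DD n) ff := by
  refine ⟨fun z hz => hz.1, ?_, ?_⟩
  · intro x hx y hy t ht0 ht1
    refine ⟨⟨convex_stdSimplex ℝ _ hx.1 hy.1 ht0 (sub_nonneg.2 ht1) (by ring), ?_⟩, ?_⟩
    · simp only [Pi.add_apply, Pi.smul_apply, smul_eq_mul]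
      rw [Finset.sum_add_distrib, ← Finset.mul_sum, ← Finset.mul_sum, hx.2, hy.2]
      ring
    · funext i
      simp only [ff, Pi.add_apply, Pi.smul_apply, smul_eq_mul]
      ring
  · apply Subset.antisymm
    · rintro _ ⟨z, hz, rfl⟩
      have h1 := hz.2
      have h2 := DD_right hz
      have h3 : ff z = ∑ a : Fin n × Fin n, (4 * z (Sum.inl a.1) * z (Sum.inr a.2)) • pt a.1 a.2 :=
        prod_rep (fun i => z (Sum.inl i)) (fun i => z (Sum.inr i)) h1 h2
      rw [h3]
      refine (convex_Dif n).sum_mem (fun a _ => ?_)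
        (prod_weights (fun i => z (Sum.inl i)) (fun i => z (Sum.inr i)) h1 h2)
        (fun a _ => pt_mem _ _)
      exact mul_nonneg (mul_nonneg (by norm_num) (hz.1.1 _)) (hz.1.1 _)
    · intro x hx
      obtain ⟨p, q, hp0, hq0, hp, hq, rfl⟩ := exists_split (by omega) hx
      refine ⟨Sum.elim p q, ⟨⟨?_, ?_⟩, ?_⟩, ?_⟩
      · rintro (i | i)
        · exact hp0 i
        · exact hq0 i
      · rw [Fintype.sum_sum_type]
        simp only [Sum.elim_inl, Sum.elim_inr]
        rw [hp, hq]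
        norm_num
      · simpa using hp
      · rfl

/-- finitely many lower bounds below finitely many upper bounds -/
theorem exists_between_finite {ι κ : Type*} [Finite ι] [Nonempty ι] (L : ι → ℝ) (U : κ → ℝ)
    (h : ∀ i k, L i ≤ U k) : ∃ b, (∀ i, L i ≤ b) ∧ ∀ k, b ≤ U k := by
  obtain ⟨i, hi⟩ := Finite.exists_max L
  exact ⟨L i, hi, fun k => h i k⟩

theorem lift_forms {n : ℕ} (hn : 2 ≤ n) (w' : Dif n → ℝ) (hw' : w' ∈ Forms (Dif n)) :
    ∃ w ∈ Forms (TT n), ∀ (a : TT n) (c : Dif n), (a : Fin n ⊕ Fin n → ℝ) ∈ DD n → ff a.1 = c →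
      w a = w' c := by
  set W : Fin n → Fin n → ℝ := fun i j => w' ⟨pt i j, pt_mem i j⟩ with hW
  have hW0 : ∀ i j, 0 ≤ W i j := fun i j => (hw'.1 _).1
  have hW1 : ∀ i j, W i j ≤ 1 := fun i j => (hw'.1 _).2
  have hfour : ∀ i j k l : Fin n, W i j + W k l = W i l + W k j := by
    intro i j k l
    have hm : ∀ i j k l : Fin n, (1 / 2 : ℝ) • pt i j + (1 - 1 / 2 : ℝ) • pt k l ∈ Dif n :=
      fun i j k l => convex_Dif n (pt_mem i j) (pt_mem k l) (by norm_num) (by norm_num)
        (by norm_num)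
    have h1 := hw'.2 ⟨_, pt_mem i j⟩ ⟨_, pt_mem k l⟩ ⟨_, hm i j k l⟩ (1 / 2) (by norm_num)
      (by norm_num) rfl
    have h2 := hw'.2 ⟨_, pt_mem i l⟩ ⟨_, pt_mem k j⟩ ⟨_, hm i l k j⟩ (1 / 2) (by norm_num)
      (by norm_num) rfl
    have h3 : (⟨_, hm i j k l⟩ : Dif n) = ⟨_, hm i l k j⟩ := by
      apply Subtype.ext
      funext e
      simp only [pt, Pi.add_apply, Pi.smul_apply, smul_eq_mul]
      ring
    rw [h3, h2] at h1
    simp only [hW]
    linarith
  have hzero : ∀ i j : Fin n, W i i = W j j := by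
    intro i j
    simp only [hW]
    congr 1
    apply Subtype.ext
    simp only [pt_self]
  set z0 : Fin n := ⟨0, by omega⟩ with hz0
  haveI : Nonempty (Fin n) := ⟨z0⟩
  obtain ⟨b, hb1, hb2⟩ := exists_between_finite
    (Sum.elim (fun i : Fin n => 2 * W i z0 - 1) (fun j : Fin n => 2 * W z0 z0 - 2 * W z0 j))
    (Sum.elim (fun i : Fin n => 2 * W i z0) (fun j : Fin n => 1 + 2 * W z0 z0 - 2 * W z0 j)) (by
      rintro (i | i) (k | k)
      · simp only [Sum.elim_inl]
        have h1 := hfour i z0 k k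
        have h2 := hzero i k
        have h3 := hW1 i k
        have h4 := hfour i k k i
        have h5 := hW0 k i
        linarith
      · simp only [Sum.elim_inl, Sum.elim_inr]
        have h1 := hfour i k z0 z0
        have h3 := hW1 i k
        linarith
      · simp only [Sum.elim_inl, Sum.elim_inr]
        have h1 := hfour k i z0 z0
        have h3 := hW0 k i
        linarith
      · simp only [Sum.elim_inr]
        have h1 := hfour z0 k i i
        have h2 := hzero i k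
        have h3 := hW1 i k
        have h4 := hfour i k k i
        have h5 := hW0 k i
        linarith)
  have hL1 : ∀ i, 2 * W i z0 - 1 ≤ b := fun i => hb1 (Sum.inl i)
  have hL2 : ∀ j, 2 * W z0 z0 - 2 * W z0 j ≤ b := fun j => hb1 (Sum.inr j)
  have hU1 : ∀ i, b ≤ 2 * W i z0 := fun i => hb2 (Sum.inl i)
  have hU2 : ∀ j, b ≤ 1 + 2 * W z0 z0 - 2 * W z0 j := fun j => hb2 (Sum.inr j)
  set u : Fin n ⊕ Fin n → ℝ := Sum.elim (fun i => 2 * W i z0 - b)
    (fun j => 2 * W z0 j - 2 * W z0 z0 + b) with hu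
  have hu0 : ∀ k, 0 ≤ u k := by
    rintro (i | j)
    · simp only [hu, Sum.elim_inl]
      linarith [hU1 i]
    · simp only [hu, Sum.elim_inr]
      linarith [hL2 j]
  have hu1 : ∀ k, u k ≤ 1 := by
    rintro (i | j)
    · simp only [hu, Sum.elim_inl]
      linarith [hL1 i]
    · simp only [hu, Sum.elim_inr]
      linarith [hU2 j]
  refine ⟨fun z => ∑ k, u k * (z : Fin n ⊕ Fin n → ℝ) k, ⟨fun z => ⟨?_, ?_⟩, ?_⟩, ?_⟩
  · exact Finset.sum_nonneg fun k _ => mul_nonneg (hu0 k) (z.2.1 k)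
  · calc ∑ k, u k * (z : Fin n ⊕ Fin n → ℝ) k ≤ ∑ k, 1 * (z : Fin n ⊕ Fin n → ℝ) k :=
          Finset.sum_le_sum fun k _ => mul_le_mul_of_nonneg_right (hu1 k) (z.2.1 k)
      _ = 1 := by
          simp only [one_mul]
          exact z.2.2
  · intro x y z t _ _ h
    simp only [h, Pi.add_apply, Pi.smul_apply, smul_eq_mul]
    rw [Finset.mul_sum, Finset.mul_sum, ← Finset.sum_add_distrib]
    exact Finset.sum_congr rfl fun k _ => by ring
  · rintro ⟨z, hz⟩ c hzD hzc
    simp only at hzD hzc ⊢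
    have h1 := hzD.2
    have h2 := DD_right hzD
    have h3 : (c : Fin n → ℝ) = ∑ a : Fin n × Fin n,
        (4 * z (Sum.inl a.1) * z (Sum.inr a.2)) • pt a.1 a.2 := by
      rw [← hzc]
      exact prod_rep (fun i => z (Sum.inl i)) (fun i => z (Sum.inr i)) h1 h2
    rw [Forms.sum (convex_Dif n) hw' Finset.univ
      (fun a : Fin n × Fin n => 4 * z (Sum.inl a.1) * z (Sum.inr a.2))
      (fun a => ⟨pt a.1 a.2, pt_mem _ _⟩)
      (fun a _ => mul_nonneg (mul_nonneg (by norm_num) (hz.1 _)) (hz.1 _))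
      (prod_weights (fun i => z (Sum.inl i)) (fun i => z (Sum.inr i)) h1 h2) c h3]
    have h4 : ∀ a : Fin n × Fin n, 4 * z (Sum.inl a.1) * z (Sum.inr a.2) *
        w' ⟨pt a.1 a.2, pt_mem _ _⟩ = 2 * z (Sum.inl a.1) * z (Sum.inr a.2) *
        (u (Sum.inl a.1) + u (Sum.inr a.2)) := by
      intro a
      have h5 := hfour a.1 a.2 z0 z0
      have h6 : u (Sum.inl a.1) + u (Sum.inr a.2) = 2 * W a.1 a.2 := by
        simp only [hu, Sum.elim_inl, Sum.elim_inr]
        linarith
      rw [h6]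
      simp only [hW]
      ring
    simp only [h4]
    rw [← Finset.univ_product_univ, Finset.sum_product, Fintype.sum_sum_type]
    simp only
    have h7 : ∀ i : Fin n, ∑ j : Fin n, 2 * z (Sum.inl i) * z (Sum.inr j) *
        (u (Sum.inl i) + u (Sum.inr j)) = u (Sum.inl i) * z (Sum.inl i) +
          2 * z (Sum.inl i) * ∑ j, u (Sum.inr j) * z (Sum.inr j) := by
      intro i
      have : ∀ j : Fin n, 2 * z (Sum.inl i) * z (Sum.inr j) *
        (u (Sum.inl i) + u (Sum.inr j)) = 2 * z (Sum.inl i) * u (Sum.inl i) * z (Sum.inr j) +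
          2 * z (Sum.inl i) * (u (Sum.inr j) * z (Sum.inr j)) := by
        intro j; ring
      simp only [this]
      rw [Finset.sum_add_distrib, ← Finset.mul_sum, ← Finset.mul_sum, h2]
      ring
    simp only [h7]
    rw [Finset.sum_add_distrib, ← Finset.sum_mul, ← Finset.mul_sum, h1]
    ring

/-- `TT n` is a simplex with `2 n` vertices -/
theorem isSimplexWith_TT (n : ℕ) :
    IsSimplexWith (TT n) (fun k : Fin n ⊕ Fin n => (Pi.single k (1 : ℝ) : Fin n ⊕ Fin n → ℝ)) := by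
  classical
  constructor
  · rw [affineIndependent_iff]
    intro s w _ h e he
    have := congrFun h e
    rw [Finset.sum_apply] at this
    simp only [Pi.smul_apply, smul_eq_mul, Pi.zero_apply] at this
    rw [Finset.sum_eq_single e] at this
    · simpa using this
    · intro b _ hb
      rw [Pi.single_eq_of_ne (Ne.symm hb), mul_zero]
    · intro h
      exact absurd he h
  · exact (convexHull_rangle_single_eq_stdSimplex ℝ (Fin n ⊕ Fin n)).symm

theorem exists_refinement_Dif {n : ℕ} (hn : 2 ≤ n) :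
    ∃ Dg g, IsRefinement (Dif n) (TT n) (DD n) ff Dg g :=
  exists_refinement (isPartial_ff hn) (lift_forms hn)

end Pool.Agent.Q155.Simp
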